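import Pool.Agent.X137.PM.Data

set_option autoImplicit false

namespace X137.PM

open Finset

/-- `m` is (the edge set of) a perfect matching of the complete graph on `Fin N`. -/
def IsPM {N : ℕ} (m : Finset (Sym2 (Fin N))) : Prop :=
  (∀ e ∈ m, ¬ e.IsDiag) ∧ ∀ v : Fin N, ∃! e, e ∈ m ∧ v ∈ e

/-- the position of the bit of an edge -/
def idx : Sym2 (Fin 12) → ℕ :=
  Sym2.lift ⟨fun a b => 12 * max a.1 b.1 + min a.1 b.1, fun a b => by
    dsimp only; rw [max_comm a.1, min_comm a.1]⟩

theorem idx_mk (a b : Fin 12) : idx s(a, b) = 12 * max a.1 b.1 + min a.1 b.1 := rfl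

/-- the set of edges of a mask -/
def mk (x : ℕ) : Finset (Sym2 (Fin 12)) :=
  univ.filter fun e => ¬ e.IsDiag ∧ x.testBit (idx e) = true

theorem mem_mk {x : ℕ} {e : Sym2 (Fin 12)} : e ∈ mk x ↔ ¬ e.IsDiag ∧ x.testBit (idx e) = true := by
  simp [mk]

theorem idx_inj {e f : Sym2 (Fin 12)} (h : idx e = idx f) : e = f := by
  induction e using Sym2.ind with
  | _ a b =>
  induction f using Sym2.ind with
  | _ c d =>
  rw [idx_mk, idx_mk] at h
  have ha := a.2
  have hb := b.2
  have hc := c.2
  have hd := d.2
  rw [Sym2.eq_iff]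
  have key : (a.1 = c.1 ∧ b.1 = d.1) ∨ (a.1 = d.1 ∧ b.1 = c.1) := by
    rcases le_total a.1 b.1 with h1 | h1 <;> rcases le_total c.1 d.1 with h2 | h2 <;>
      simp only [max_eq_left, max_eq_right, min_eq_left, min_eq_right, h1, h2] at h <;> omega
  rcases key with ⟨h1, h2⟩ | ⟨h1, h2⟩
  · exact Or.inl ⟨Fin.ext h1, Fin.ext h2⟩
  · exact Or.inr ⟨Fin.ext h1, Fin.ext h2⟩

theorem idx_edges {e : Sym2 (Fin 12)} (h : ¬ e.IsDiag) : idx e ∈ edges := by
  revert h
  revert e
  decide +kernel

/-- disjointness of edges -/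
def disj (e f : ℕ) : Bool := Nat.beq (Nat.land (vm e) (vm f)) 0

theorem disj_fin : ∀ a b c d : Fin 12, (a ≠ b ∧ c ≠ d ∧ a ≠ c) ∧ (a ≠ d ∧ b ≠ c ∧ b ≠ d) →
    disj (12 * max a.1 b.1 + min a.1 b.1) (12 * max c.1 d.1 + min c.1 d.1) = true := by
  decide +kernel

theorem disj_idx {e f : Sym2 (Fin 12)} (he : ¬ e.IsDiag) (hf : ¬ f.IsDiag)
    (h : ∀ v, v ∈ e → v ∉ f) : disj (idx e) (idx f) = true := by
  induction e using Sym2.ind with
  | _ a b =>
  induction f using Sym2.ind with
  | _ c d =>
  have h1 := h a (Sym2.mem_mk_left a b)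
  have h2 := h b (Sym2.mem_mk_right a b)
  rw [Sym2.mem_iff, not_or] at h1 h2
  rw [Sym2.mk_isDiag_iff] at he hf
  exact disj_fin a b c d ⟨⟨he, hf, h1.1⟩, h1.2, h2.1, h2.2⟩

theorem INC_mem : ∀ v : Fin 12, INC.getD v.1 [] ∈ INC := by decide +kernel

theorem INC_bit : ∀ v : Fin 12, ∀ k ∈ INC.getD v.1 [], ∃ u : Fin 12, u ≠ v ∧ k = idx s(v, u) := by
  decide +kernel

theorem INC_bit' : ∀ v u : Fin 12, u ≠ v → idx s(v, u) ∈ INC.getD v.1 [] := by
  decide +kernel

theorem EM_bit : ∀ k : Fin 144, EM.testBit k.1 = true → ∃ e : Sym2 (Fin 12), ¬ e.IsDiag ∧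
    k.1 = idx e := by decide +kernel

theorem EM_lt : EM < 2 ^ 144 := by decide +kernel

/-! ### numbers and lists of bits -/

/-- the number of a list of bits -/
def num : List Bool → ℕ
  | [] => 0
  | b :: l => Nat.bit b (num l)

theorem col_eq (e : ℕ) (l : List ℕ) : col e l = num (l.map fun x => x.testBit e) := by
  induction l with
  | nil => rfl
  | cons x l ih =>
    have h : col e (x :: l) = 2 * col e l + ((x / 2 ^ e) &&& 1) := rfl
    rw [h, List.map_cons, num, Nat.bit_val, ih, Nat.and_one_is_mod, Nat.toNat_testBit]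

theorem land_num (l : List ℕ) (f g : ℕ → Bool) :
    Nat.land (num (l.map f)) (num (l.map g)) = num (l.map fun x => f x && g x) := by
  induction l with
  | nil => exact Nat.zero_and 0
  | cons x l ih =>
    rw [List.map_cons, List.map_cons, List.map_cons, num, num, num, ← ih]
    exact Nat.land_bit _ _ _ _

theorem lor_num (l : List ℕ) (f g : ℕ → Bool) :
    Nat.lor (num (l.map f)) (num (l.map g)) = num (l.map fun x => f x || g x) := by
  induction l with
  | nil => exact Nat.zero_or 0
  | cons x l ih =>
    rw [List.map_cons, List.map_cons, List.map_cons, num, num, num, ← ih]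
    exact Nat.lor_bit _ _ _ _

theorem num_zero (l : List ℕ) (f : ℕ → Bool) (h : num (l.map f) = 0) : ∀ x ∈ l, f x = false := by
  induction l with
  | nil => simp
  | cons x l ih =>
    rw [List.map_cons, num, Nat.bit_val] at h
    intro y hy
    rcases List.mem_cons.1 hy with rfl | hy
    · cases hf : f y with
      | false => rfl
      | true =>
        rw [hf, Bool.toNat_true] at h
        omega
    · exact ih (by omega) y hy

theorem num_full (l : List ℕ) (f : ℕ → Bool) (h : num (l.map f) = 2 ^ l.length - 1) :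
    ∀ x ∈ l, f x = true := by
  induction l with
  | nil => simp
  | cons x l ih =>
    rw [List.map_cons, num, Nat.bit_val, List.length_cons, pow_succ] at h
    have hp : 1 ≤ 2 ^ l.length := Nat.one_le_two_pow
    have hf : f x = true := by
      cases hf : f x with
      | true => rfl
      | false =>
        rw [hf, Bool.toNat_false] at h
        omega
    rw [hf, Bool.toNat_true] at h
    intro y hy
    rcases List.mem_cons.1 hy with rfl | hy
    · exact hf
    · exact ih (by omega) y hy

/-- clearing the first bit that is one -/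
def clrL : List Bool → List Bool
  | [] => []
  | true :: r => false :: r
  | false :: r => false :: clrL r

theorem clr_num (l : List Bool) : clr (num l) = num (clrL l) := by
  induction l with
  | nil => rfl
  | cons b l ih =>
    cases b with
    | true =>
      have h1 : clr (num (true :: l)) = (Nat.bit true (num l)) &&& (Nat.bit false (num l)) := by
        unfold clr
        rw [num]
        have : Nat.sub (Nat.bit true (num l)) 1 = Nat.bit false (num l) := by
          change Nat.bit true (num l) - 1 = _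
          rw [Nat.bit_val, Nat.bit_val]
          simp
        rw [this]
        rfl
      rw [h1, Nat.land_bit, clrL, num, Nat.and_self]
      rfl
    | false =>
      have h3 : num (clrL (false :: l)) = Nat.bit false (clr (num l)) := by
        rw [clrL, num, ih]
      rw [h3]
      rcases Nat.eq_zero_or_pos (num l) with h0 | h0
      · have h2 : num (false :: l) = 0 := by rw [num, h0]; rfl
        rw [h2, h0]
        rfl
      · have h1 : clr (num (false :: l)) =
            (Nat.bit false (num l)) &&& (Nat.bit true (num l - 1)) := by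
          unfold clr
          rw [num]
          have : Nat.sub (Nat.bit false (num l)) 1 = Nat.bit true (num l - 1) := by
            change Nat.bit false (num l) - 1 = _
            rw [Nat.bit_val, Nat.bit_val]
            simp only [Bool.toNat_false, Bool.toNat_true]
            omega
          rw [this]
          rfl
        rw [h1, Nat.land_bit]
        rfl

theorem count_clrL (l : List Bool) : (clrL l).count true = l.count true - 1 := by
  induction l with
  | nil => rfl
  | cons b l ih =>
    cases b with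
    | true => simp [clrL]
    | false => simp [clrL, ih]

theorem num_eq_zero (l : List Bool) : num l = 0 ↔ l.count true = 0 := by
  induction l with
  | nil => simp [num]
  | cons b l ih =>
    rw [num, Nat.bit_val]
    cases b with
    | true => simp
    | false => simp [ih]

theorem p6_num (l : List Bool) (h : p6 (num l) = true) : l.count true = 6 := by
  unfold p6 at h
  simp only [clr_num] at h
  rw [Bool.and_eq_true, Bool.not_eq_true'] at h
  have h2 := (num_eq_zero _).1 (Nat.eq_of_beq_eq_true h.2)
  have h1 : ¬ (clrL (clrL (clrL (clrL (clrL l))))).count true = 0 := by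
    intro h3
    rw [← num_eq_zero] at h3
    rw [h3] at h
    exact absurd h.1 (by decide)
  simp only [count_clrL] at h1 h2
  omega

theorem al_iff (p : ℕ → Bool) (l : List ℕ) : al p l = true ↔ ∀ x ∈ l, p x = true := by
  induction l with
  | nil => simp [al]
  | cons x l ih =>
    have h : al p (x :: l) = cond (p x) (al p l) false := rfl
    rw [h]
    cases hp : p x with
    | true => simp [hp, ih]
    | false => simp [hp]

theorem c5_spec (l : List ℕ) (h : c5 l = true) :
    l.Pairwise fun e f => ∀ x ∈ L, ¬ (x.testBit e = true ∧ x.testBit f = true) := by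
  induction l with
  | nil => exact List.Pairwise.nil
  | cons e r ih =>
    have h1 : c5 (e :: r) =
      cond (al (fun f => Nat.beq (Nat.land (col e L) (col f L)) 0) r) (c5 r) false := rfl
    rw [h1] at h
    cases ha : al (fun f => Nat.beq (Nat.land (col e L) (col f L)) 0) r with
    | false =>
      rw [ha] at h
      exact absurd h (by simp)
    | true =>
      rw [ha] at h
      refine List.Pairwise.cons ?_ (ih h)
      intro f hf x hx
      have h2 := Nat.eq_of_beq_eq_true ((al_iff _ _).1 ha f hf)
      rw [col_eq, col_eq, land_num] at h2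
      have h3 := num_zero _ _ h2 x hx
      rintro ⟨h4, h5⟩
      rw [h4, h5] at h3
      exact absurd h3 (by decide)

theorem c6_eq (l : List ℕ) : c6 l = num (L.map fun x => l.any fun e => x.testBit e) := by
  induction l with
  | nil =>
    have : ∀ m : List ℕ, num (m.map fun x => ([] : List ℕ).any fun e => x.testBit e) = 0 := by
      intro m
      induction m with
      | nil => rfl
      | cons y m ih => rw [List.map_cons, num, ih]; rfl
    rw [this]
    rfl
  | cons e r ih =>
    have h1 : c6 (e :: r) = Nat.lor (col e L) (c6 r) := rfl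
    rw [h1, ih, col_eq, lor_num]
    rfl

theorem len_eq (l : List ℕ) : len l = l.length := by
  induction l with
  | nil => rfl
  | cons x l ih =>
    have h : len (x :: l) = Nat.succ (len l) := rfl
    rw [h, ih]
    rfl

theorem check0' : decr L (Nat.pow 2 144) = true ∧
    (∀ x ∈ L, x ≠ x0 ∧ Nat.land x EM = x) ∧ L.length = 4158 := by
  have h := check0
  rw [Bool.and_eq_true, Bool.and_eq_true] at h
  obtain ⟨⟨h1, h2⟩, h3⟩ := h
  refine ⟨h1, fun x hx => ?_, ?_⟩
  · have h1 := (al_iff _ _).1 h2 x hx
    cases hb : Nat.beq x x0 with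
    | true =>
      rw [hb] at h1
      exact absurd h1 (by simp)
    | false =>
      rw [hb] at h1
      refine ⟨?_, Nat.eq_of_beq_eq_true h1⟩
      intro he
      rw [he, Nat.beq_refl] at hb
      exact absurd hb (by simp)
  · rw [← len_eq]
    exact Nat.eq_of_beq_eq_true h3

/-- the selected masks are perfect matchings -/
theorem isPM_mk {x : ℕ} (hx : x ∈ L) : IsPM (mk x) := by
  refine ⟨fun e he => (mem_mk.1 he).1, fun v => ?_⟩
  have h := check1
  rw [List.all_eq_true] at h
  have h1 := h _ (INC_mem v)
  rw [Bool.and_eq_true] at h1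
  have h2 := c5_spec _ h1.1
  have h3 : c6 (INC.getD v.1 []) = fl 4158 := Nat.eq_of_beq_eq_true h1.2
  rw [c6_eq, ← check0'.2.2] at h3
  have h4 := num_full _ _ h3 x hx
  rw [List.any_eq_true] at h4
  obtain ⟨k, hk, hkx⟩ := h4
  obtain ⟨u, huv, rfl⟩ := INC_bit v k hk
  refine ⟨s(v, u), ⟨?_, Sym2.mem_mk_left v u⟩, ?_⟩
  · rw [mem_mk, Sym2.mk_isDiag_iff]
    exact ⟨fun h => huv h.symm, hkx⟩
  · rintro e ⟨he, hve⟩
    obtain ⟨w, rfl⟩ := Sym2.mem_iff_exists.1 hve
    rw [mem_mk, Sym2.mk_isDiag_iff] at he
    have h5 := INC_bit' v w (fun h => he.1 h.symm)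
    by_contra hne
    have hne' : idx s(v, w) ≠ idx s(v, u) := fun h => hne (idx_inj h)
    have h7 : Std.Symm fun e f : ℕ => ∀ x ∈ L, ¬ (x.testBit e = true ∧ x.testBit f = true) :=
      ⟨fun _ _ hab y hy h => hab y hy ⟨h.2, h.1⟩⟩
    exact h2.forall h5 hk hne' x hx ⟨he.2, hkx⟩

theorem mk_inj {x y : ℕ} (hx : Nat.land x EM = x) (hy : Nat.land y EM = y) (h : mk x = mk y) :
    x = y := by
  have hx1 : ∀ k, x.testBit k = (x.testBit k && EM.testBit k) := by
    intro k
    have h3 : (Nat.land x EM).testBit k = (x.testBit k && EM.testBit k) := Nat.testBit_land x EM k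
    rw [← h3, hx]
  have hy1 : ∀ k, y.testBit k = (y.testBit k && EM.testBit k) := by
    intro k
    have h3 : (Nat.land y EM).testBit k = (y.testBit k && EM.testBit k) := Nat.testBit_land y EM k
    rw [← h3, hy]
  apply Nat.eq_of_testBit_eq
  intro k
  by_cases hE : EM.testBit k = true
  · have hk : k < 144 := by
      by_contra hcon
      have h4 : EM < 2 ^ k := EM_lt.trans_le (Nat.pow_le_pow_right (by norm_num) (by omega))
      rw [Nat.testBit_lt_two_pow h4] at hE
      exact Bool.false_ne_true hE
    obtain ⟨e, he, hke⟩ := EM_bit ⟨k, hk⟩ hE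
    have hke' : k = idx e := hke
    have h5 : e ∈ mk x ↔ e ∈ mk y := by rw [h]
    rw [mem_mk, mem_mk, ← hke'] at h5
    have h6 : x.testBit k = true ↔ y.testBit k = true :=
      ⟨fun h => (h5.1 ⟨he, h⟩).2, fun h => (h5.2 ⟨he, h⟩).2⟩
    exact Bool.eq_iff_iff.2 h6
  · rw [Bool.not_eq_true] at hE
    rw [hx1, hy1, hE, Bool.and_false, Bool.and_false]

theorem decr_chain (l : List ℕ) : ∀ y, decr l y = true → List.IsChain (· > ·) (y :: l) := by
  induction l with
  | nil => exact fun y _ => List.IsChain.singleton y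
  | cons x l ih =>
    intro y h
    have h1 : decr (x :: l) y = cond (Nat.ble y x) false (decr l x) := rfl
    rw [h1] at h
    cases hb : Nat.ble y x with
    | true =>
      rw [hb] at h
      exact absurd h (by simp)
    | false =>
      rw [hb] at h
      have h2 : ¬ y ≤ x := fun hle => by
        rw [Nat.ble_eq_true_of_le hle] at hb
        exact Bool.false_ne_true hb.symm
      exact List.IsChain.cons_cons (by omega) (ih x h)

theorem L_nodup : L.Nodup := by
  have h1 := List.isChain_iff_pairwise.1 (decr_chain L _ check0'.1)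
  exact (List.pairwise_cons.1 h1).2.imp fun h => ne_of_gt h

/-! ### the count -/

/-- the number of selected matchings that contain three edges -/
def cnt (a b c : ℕ) : ℕ :=
  (L.filter fun x => x.testBit a && x.testBit b && x.testBit c).length

theorem count_map (l : List ℕ) (f : ℕ → Bool) : (l.map f).count true = (l.filter f).length := by
  induction l with
  | nil => rfl
  | cons x l ih =>
    cases hf : f x <;> simp [hf, ih]

theorem sub_eq (e : ℕ) (l : List ℕ) : sub e l = l.filter fun f => disj e f := by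
  induction l with
  | nil => rfl
  | cons f l ih =>
    have h : sub e (f :: l) =
      cond (Nat.beq (Nat.land (vm e) (vm f)) 0) (f :: sub e l) (sub e l) := rfl
    rw [h, List.filter_cons, ih]
    unfold disj
    cases Nat.beq (Nat.land (vm e) (vm f)) 0 <;> rfl

theorem c3_spec (z : ℕ) (l : List ℕ) (h : c3 z l = true) :
    ∀ e ∈ l, p6 (Nat.land z (col e L)) = true := by
  induction l with
  | nil => simp
  | cons e r ih =>
    have h1 : c3 z (e :: r) = cond (p6 (Nat.land z (col e L))) (c3 z r) false := rfl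
    rw [h1] at h
    cases ha : p6 (Nat.land z (col e L)) with
    | false =>
      rw [ha] at h
      exact absurd h (by simp)
    | true =>
      rw [ha] at h
      intro f hf
      rcases List.mem_cons.1 hf with rfl | hf
      · exact ha
      · exact ih h f hf

theorem c2_spec (z : ℕ) (l : List ℕ) (h : c2 z l = true) (b c : ℕ) (hs : [b, c].Sublist l)
    (hd : disj b c = true) : p6 (Nat.land (Nat.land z (col b L)) (col c L)) = true := by
  induction l with
  | nil => simp at hs
  | cons e r ih =>
    have h1 : c2 z (e :: r) =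
      cond (c3 (Nat.land z (col e L)) (sub e r)) (c2 z r) false := rfl
    rw [h1] at h
    cases ha : c3 (Nat.land z (col e L)) (sub e r) with
    | false =>
      rw [ha] at h
      exact absurd h (by simp)
    | true =>
      rw [ha] at h
      cases hs with
      | cons _ hs => exact ih h hs
      | cons_cons _ hs =>
        apply c3_spec _ _ ha
        rw [sub_eq, List.mem_filter]
        exact ⟨List.singleton_sublist.1 hs, hd⟩

theorem c1_spec (l : List ℕ) (h : c1 l = true) (a b c : ℕ) (hs : [a, b, c].Sublist l)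
    (h1 : disj a b = true) (h2 : disj a c = true) (h3 : disj b c = true) :
    p6 (Nat.land (Nat.land (col a L) (col b L)) (col c L)) = true := by
  induction l with
  | nil => simp at hs
  | cons e r ih =>
    have h4 : c1 (e :: r) = cond (c2 (col e L) (sub e r)) (c1 r) false := rfl
    rw [h4] at h
    cases ha : c2 (col e L) (sub e r) with
    | false =>
      rw [ha] at h
      exact absurd h (by simp)
    | true =>
      rw [ha] at h
      cases hs with
      | cons _ hs => exact ih h hs
      | cons_cons _ hs =>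
        refine c2_spec _ _ ha b c ?_ h3
        rw [sub_eq]
        have h5 := hs.filter fun f => disj a f
        rw [List.filter_cons_of_pos (by exact h1), List.filter_cons_of_pos (by exact h2),
          List.filter_nil] at h5
        exact h5

theorem sub2 (l : List ℕ) (h : l.Pairwise (· < ·)) {b c : ℕ} (hb : b ∈ l) (hc : c ∈ l)
    (hbc : b < c) : [b, c].Sublist l := by
  induction l with
  | nil => simp at hb
  | cons x r ih =>
    rw [List.pairwise_cons] at h
    rcases List.mem_cons.1 hb with rfl | hb'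
    · rcases List.mem_cons.1 hc with rfl | hc'
      · omega
      · exact (List.singleton_sublist.2 hc').cons_cons b
    · rcases List.mem_cons.1 hc with rfl | hc'
      · have := h.1 b hb'
        omega
      · exact (ih h.2 hb' hc').cons x

theorem sub3 (l : List ℕ) (h : l.Pairwise (· < ·)) {a b c : ℕ} (ha : a ∈ l) (hb : b ∈ l)
    (hc : c ∈ l) (hab : a < b) (hbc : b < c) : [a, b, c].Sublist l := by
  induction l with
  | nil => simp at hb
  | cons x r ih =>
    rw [List.pairwise_cons] at h
    rcases List.mem_cons.1 ha with rfl | ha'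
    · rcases List.mem_cons.1 hb with rfl | hb'
      · omega
      · rcases List.mem_cons.1 hc with rfl | hc'
        · omega
        · exact (sub2 r h.2 hb' hc' hbc).cons_cons a
    · rcases List.mem_cons.1 hb with rfl | hb'
      · have := h.1 a ha'
        omega
      · rcases List.mem_cons.1 hc with rfl | hc'
        · have := h.1 a ha'
          omega
        · exact (ih h.2 ha' hb' hc').cons x

theorem edges_sorted : edges.Pairwise (· < ·) := by decide +kernel

theorem cnt_six {a b c : ℕ} (ha : a ∈ edges) (hb : b ∈ edges) (hc : c ∈ edges) (hab : a < b)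
    (hbc : b < c) (h1 : disj a b = true) (h2 : disj a c = true) (h3 : disj b c = true) :
    cnt a b c = 6 := by
  have h := c1_spec edges check2 a b c (sub3 _ edges_sorted ha hb hc hab hbc) h1 h2 h3
  rw [col_eq, col_eq, col_eq, land_num, land_num] at h
  have h4 := p6_num _ h
  rw [count_map] at h4
  exact h4

theorem cnt_perm1 (a b c : ℕ) : cnt a b c = cnt b a c := by
  unfold cnt
  congr 1
  apply List.filter_congr
  intro x _
  cases x.testBit a <;> cases x.testBit b <;> cases x.testBit c <;> rfl

theorem cnt_perm2 (a b c : ℕ) : cnt a b c = cnt a c b := by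
  unfold cnt
  congr 1
  apply List.filter_congr
  intro x _
  cases x.testBit a <;> cases x.testBit b <;> cases x.testBit c <;> rfl

theorem disj_comm (a b : ℕ) (h : disj a b = true) : disj b a = true := by
  unfold disj at h ⊢
  rw [show Nat.land (vm b) (vm a) = Nat.land (vm a) (vm b) from Nat.and_comm _ _]
  exact h

theorem vm_ne (a : ℕ) : Nat.land (vm a) (vm a) ≠ 0 := by
  rw [show Nat.land (vm a) (vm a) = vm a from Nat.and_self _]
  change 2 ^ (a / 12) + 2 ^ (a % 12) ≠ 0
  positivity

theorem disj_ne {a b : ℕ} (h : disj a b = true) : a ≠ b := by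
  rintro rfl
  exact vm_ne a (Nat.eq_of_beq_eq_true h)

theorem cnt_all {a b c : ℕ} (ha : a ∈ edges) (hb : b ∈ edges) (hc : c ∈ edges)
    (h1 : disj a b = true) (h2 : disj a c = true) (h3 : disj b c = true) : cnt a b c = 6 := by
  have h1' := disj_comm _ _ h1
  have h2' := disj_comm _ _ h2
  have h3' := disj_comm _ _ h3
  rcases lt_or_gt_of_ne (disj_ne h1) with hab | hab <;>
  rcases lt_or_gt_of_ne (disj_ne h2) with hac | hac <;>
  rcases lt_or_gt_of_ne (disj_ne h3) with hbc | hbc
  · exact cnt_six ha hb hc hab hbc h1 h2 h3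
  · rw [cnt_perm2]
    exact cnt_six ha hc hb hac hbc h2 h1 h3'
  · omega
  · rw [cnt_perm2, cnt_perm1]
    exact cnt_six hc ha hb hac hab h2' h3' h1
  · rw [cnt_perm1]
    exact cnt_six hb ha hc hab hac h1' h3 h2
  · omega
  · rw [cnt_perm1, cnt_perm2]
    exact cnt_six hb hc ha hbc hac h3 h1' h2'
  · rw [cnt_perm1, cnt_perm2, cnt_perm1]
    exact cnt_six hc hb ha hbc hab h3' h2' h1'

/-- the set of perfect matchings -/
def D : Set (Finset (Sym2 (Fin 12))) := {m | ∃ x ∈ L, mk x = m}

theorem main {e₁ e₂ e₃ : Sym2 (Fin 12)} (d1 : ¬ e₁.IsDiag) (d2 : ¬ e₂.IsDiag) (d3 : ¬ e₃.IsDiag)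
    (h12 : ∀ v, v ∈ e₁ → v ∉ e₂) (h13 : ∀ v, v ∈ e₁ → v ∉ e₃) (h23 : ∀ v, v ∈ e₂ → v ∉ e₃) :
    {m | m ∈ D ∧ e₁ ∈ m ∧ e₂ ∈ m ∧ e₃ ∈ m}.ncard = 6 := by
  classical
  have h1 : {m | m ∈ D ∧ e₁ ∈ m ∧ e₂ ∈ m ∧ e₃ ∈ m} =
      mk '' ((L.filter fun x => x.testBit (idx e₁) && x.testBit (idx e₂) &&
        x.testBit (idx e₃)).toFinset : Set ℕ) := by
    ext m
    simp only [Set.mem_ofPred_eq, Set.mem_image, Finset.mem_coe, List.mem_toFinset,
      List.mem_filter, Bool.and_eq_true]
    constructor
    · rintro ⟨⟨x, hx, rfl⟩, m1, m2, m3⟩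
      exact ⟨x, ⟨hx, ⟨(mem_mk.1 m1).2, (mem_mk.1 m2).2⟩, (mem_mk.1 m3).2⟩, rfl⟩
    · rintro ⟨x, ⟨hx, ⟨m1, m2⟩, m3⟩, rfl⟩
      exact ⟨⟨x, hx, rfl⟩, mem_mk.2 ⟨d1, m1⟩, mem_mk.2 ⟨d2, m2⟩, mem_mk.2 ⟨d3, m3⟩⟩
  rw [h1, Set.InjOn.ncard_image, Set.ncard_coe_finset, List.toFinset_card_of_nodup]
  · exact cnt_all (idx_edges d1) (idx_edges d2) (idx_edges d3) (disj_idx d1 d2 h12)
      (disj_idx d1 d3 h13) (disj_idx d2 d3 h23)
  · exact L_nodup.filter _
  · intro x hx y hy hxy
    simp only [Finset.mem_coe, List.mem_toFinset, List.mem_filter] at hx hy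
    exact mk_inj (check0'.2.1 x hx.1).2 (check0'.2.1 y hy.1).2 hxy

theorem x0_land : Nat.land x0 EM = x0 := by decide +kernel

theorem x0_notMem : mk x0 ∉ D := by
  rintro ⟨x, hx, h⟩
  exact (check0'.2.1 x hx).1 (mk_inj (check0'.2.1 x hx).2 x0_land h)

theorem x0_bit : ∀ v : Fin 12, ∃ u : Fin 12, u ≠ v ∧ x0.testBit (idx s(v, u)) = true ∧
    ∀ w : Fin 12, w ≠ v → x0.testBit (idx s(v, w)) = true → w = u := by decide +kernel

theorem x0_isPM : IsPM (mk x0) := by
  refine ⟨fun e he => (mem_mk.1 he).1, fun v => ?_⟩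
  obtain ⟨u, huv, hu, hw⟩ := x0_bit v
  refine ⟨s(v, u), ⟨?_, Sym2.mem_mk_left v u⟩, ?_⟩
  · rw [mem_mk, Sym2.mk_isDiag_iff]
    exact ⟨fun h => huv h.symm, hu⟩
  · rintro e ⟨he, hve⟩
    obtain ⟨w, rfl⟩ := Sym2.mem_iff_exists.1 hve
    rw [mem_mk, Sym2.mk_isDiag_iff] at he
    rw [hw w (fun h => he.1 h.symm) he.2]

theorem D_isPM : ∀ m ∈ D, IsPM m := by
  rintro _ ⟨x, hx, rfl⟩
  exact isPM_mk hx

theorem D_nonempty : D.Nonempty := by
  have h : L ≠ [] := by
    intro h
    have := check0'.2.2
    rw [h] at this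
    simp at this
  obtain ⟨x, hx⟩ := List.exists_mem_of_ne_nil _ h
  exact ⟨mk x, x, hx, rfl⟩

end X137.PM
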